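import Pool.Agent.K3h78.PP.Stm

/-!
# Project PP, brick LO: the Littlewood–Offord bound
-/

set_option autoImplicit false

namespace Pool.Agent.K3h85.PPLO

/-- the positions of the values `i` and `j` -/
def TT {b n : ℕ} (i j : Fin b) (f : Fin n → Fin b) : Finset (Fin n) :=
  Finset.univ.filter fun k => f k = i ∨ f k = j

/-- the other values -/
def gg {b n : ℕ} (i j : Fin b) (f : Fin n → Fin b) : Fin n → Fin b :=
  fun k => if f k = i ∨ f k = j then i else f k

theorem sum_eq {b n : ℕ} (a : Fin b → ℝ) {i j : Fin b} (f : Fin n → Fin b) :
    ∑ k, a (f k) = ∑ k, a (gg i j f k) + ((TT i j f).card : ℝ) * (a j - a i) -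
      ((Finset.univ.filter fun k => f k = i).card : ℝ) * (a j - a i) := by
  have h1 : ((TT i j f).card : ℝ) * (a j - a i) =
      ∑ k, if f k = i ∨ f k = j then (a j - a i) else 0 := by
    rw [← Finset.sum_filter, Finset.sum_const, nsmul_eq_mul]
    rfl
  have h2 : ((Finset.univ.filter fun k => f k = i).card : ℝ) * (a j - a i) =
      ∑ k, if f k = i then (a j - a i) else 0 := by
    rw [← Finset.sum_filter, Finset.sum_const, nsmul_eq_mul]
  rw [h1, h2, ← Finset.sum_add_distrib, ← Finset.sum_sub_distrib]
  refine Finset.sum_congr rfl fun k _ => ?_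
  unfold gg
  by_cases h3 : f k = i
  · rw [if_pos (Or.inl h3), if_pos (Or.inl h3), if_pos h3, h3]
    ring
  · by_cases h4 : f k = j
    · rw [if_pos (Or.inr h4), if_pos (Or.inr h4), if_neg h3, h4]
      ring
    · have h5 : ¬ (f k = i ∨ f k = j) := fun h => h.elim h3 h4
      rw [if_neg h5, if_neg h5, if_neg h3]
      ring

theorem t_LO : Pool.Agent.K3h78.PP.S_LO := by
  classical
  intro b n a i j hij t
  have hne : i ≠ j := fun h => hij (by rw [h])
  have hji : a j - a i ≠ 0 := sub_ne_zero.mpr (Ne.symm hij)
  rw [Nat.card_eq_fintype_card, Fintype.card_subtype]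
  have h1 := Finset.card_eq_sum_card_fiberwise
    (s := Finset.univ.filter fun f : Fin n → Fin b => ∑ k, a (f k) = t)
    (t := (Finset.univ : Finset (Finset (Fin n)))) (f := TT i j) fun _ _ => Finset.mem_univ _
  rw [h1]
  have h2 : ∀ T : Finset (Fin n),
      ((Finset.univ.filter fun f : Fin n → Fin b => ∑ k, a (f k) = t).filter
        fun f => TT i j f = T).card ≤ (b - 2) ^ (n - T.card) * T.card.choose (T.card / 2) := by
    intro T
    set S := (Finset.univ.filter fun f : Fin n → Fin b => ∑ k, a (f k) = t).filter
        fun f => TT i j f = T with hS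
    have hmem : ∀ f ∈ S, ∑ k, a (f k) = t ∧ TT i j f = T := by
      intro f hf
      rw [hS, Finset.mem_filter, Finset.mem_filter] at hf
      exact ⟨hf.1.2, hf.2⟩
    have h3 : S.card ≤ T.card.choose (T.card / 2) * (S.image (gg i j)).card := by
      refine Finset.card_le_mul_card_image S _ fun g hg => ?_
      rcases (S.filter fun f => gg i j f = g).eq_empty_or_nonempty with h0 | ⟨f0, hf0⟩
      · rw [h0, Finset.card_empty]
        exact Nat.zero_le _
      rw [Finset.mem_filter] at hf0
      have hf1 := hmem f0 hf0.1
      refine (Finset.card_le_card_of_injOn (t := Finset.powersetCard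
        (Finset.univ.filter fun k => f0 k = i).card T)
        (fun f => Finset.univ.filter fun k => f k = i) ?_ ?_).trans ?_
      · intro f hf
        rw [Finset.mem_coe, Finset.mem_filter] at hf
        have hf2 := hmem f hf.1
        rw [Finset.mem_coe, Finset.mem_powersetCard]
        constructor
        · rw [← hf2.2]
          intro k hk
          rw [Finset.mem_filter] at hk
          exact Finset.mem_filter.mpr ⟨Finset.mem_univ _, Or.inl hk.2⟩
        · have e1 := sum_eq a (i := i) (j := j) f
          have e2 := sum_eq a (i := i) (j := j) f0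
          rw [hf2.1, hf2.2, hf.2] at e1
          rw [hf1.1, hf1.2, hf0.2] at e2
          have e3 : ((Finset.univ.filter fun k => f k = i).card : ℝ) * (a j - a i) =
              ((Finset.univ.filter fun k => f0 k = i).card : ℝ) * (a j - a i) := by
            linarith
          exact_mod_cast mul_right_cancel₀ hji e3
      · intro f hf f' hf' h
        rw [Finset.mem_coe, Finset.mem_filter] at hf hf'
        have hf2 := hmem f hf.1
        have hf2' := hmem f' hf'.1
        funext k
        have e1 : f k = i ↔ f' k = i := by
          have := Finset.ext_iff.mp h k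
          simpa using this
        have e2 : (f k = i ∨ f k = j) ↔ (f' k = i ∨ f' k = j) := by
          have := Finset.ext_iff.mp (hf2.2.trans hf2'.2.symm) k
          simpa [TT] using this
        have e3 := congrFun (hf.2.trans hf'.2.symm) k
        unfold gg at e3
        by_cases h4 : f k = i
        · rw [h4, e1.mp h4]
        · have h4' : f' k ≠ i := fun h => h4 (e1.mpr h)
          by_cases h5 : f k = j
          · rcases e2.mp (Or.inr h5) with h6 | h6
            · exact absurd h6 h4'
            · rw [h5, h6]
          · have h6 : ¬ (f k = i ∨ f k = j) := fun h => h.elim h4 h5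
            have h7 : ¬ (f' k = i ∨ f' k = j) := fun h => h6 (e2.mpr h)
            rw [if_neg h6, if_neg h7] at e3
            exact e3
      · rw [Finset.card_powersetCard]
        exact Nat.choose_le_middle _ _
    have h4 : (S.image (gg i j)).card ≤ (b - 2) ^ (n - T.card) := by
      have h5 : S.image (gg i j) ⊆ Fintype.piFinset fun k =>
          if k ∈ T then ({i} : Finset (Fin b)) else Finset.univ \ {i, j} := by
        intro g hg
        obtain ⟨f, hf, rfl⟩ := Finset.mem_image.mp hg
        have hf2 := hmem f hf
        rw [Fintype.mem_piFinset]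
        intro k
        rw [← hf2.2]
        unfold TT gg
        by_cases h6 : f k = i ∨ f k = j
        · simp [h6]
        · simp [h6]
      refine (Finset.card_le_card h5).trans ?_
      rw [Fintype.card_piFinset]
      have h6 : ∀ k : Fin n, (if k ∈ T then ({i} : Finset (Fin b)) else Finset.univ \ {i, j}).card =
          if k ∈ T then 1 else b - 2 := by
        intro k
        by_cases h7 : k ∈ T
        · rw [if_pos h7, if_pos h7, Finset.card_singleton]
        · rw [if_neg h7, if_neg h7, Finset.card_sdiff_of_subset (Finset.subset_univ _), Finset.card_pair hne,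
            Finset.card_univ, Fintype.card_fin]
      rw [Finset.prod_congr rfl fun k _ => h6 k, Finset.prod_ite, Finset.prod_const_one, one_mul,
        Finset.prod_const]
      refine le_of_eq ?_
      congr 1
      have h8 : (Finset.univ.filter fun k => k ∉ T) = Tᶜ := by
        ext k
        simp
      rw [h8, Finset.card_compl, Fintype.card_fin]
    calc S.card ≤ T.card.choose (T.card / 2) * (S.image (gg i j)).card := h3
      _ ≤ T.card.choose (T.card / 2) * (b - 2) ^ (n - T.card) := Nat.mul_le_mul_left _ h4
      _ = _ := mul_comm _ _
  refine (Finset.sum_le_sum fun T _ => h2 T).trans ?_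
  have h3 := Finset.sum_powerset_apply_card (x := (Finset.univ : Finset (Fin n)))
    (fun m => (b - 2) ^ (n - m) * m.choose (m / 2))
  rw [Finset.powerset_univ, Finset.card_univ, Fintype.card_fin] at h3
  rw [h3]
  refine le_of_eq (Finset.sum_congr rfl fun k _ => ?_)
  rw [smul_eq_mul, mul_assoc]

end Pool.Agent.K3h85.PPLO
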